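import Pool.Agent.H701M.A3

set_option autoImplicit false

/-!
# The upper limit of `|S(x)| / x`, `S(x) = ∑_{n ≤ x} (-2)^Ω(n)`, as the supremum of a convergent series

Let `M(x)` be the part of the sum `S(x)` over the odd numbers.  Then `M(x) = O(x / (log x)^A)` for
every `A`, since the Dirichlet series of (-2)^Ω(n) over the odd `n` is the product of `ζ(s)^(-2)`
(without the factor of 2) and a Dirichlet series that converges absolutely at `s = 9 / 10`.  As
`S(x) + 2 S(x / 2) = M(x)`, the function `S(x) / x` is, up to `O((log x)^(-A))` for every `A`, the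
function `H(x) = ∑_{j ≥ 0} (-1)^j M(2^j x) / (2^j x)` on `1 ≤ x < 2`, continued by
`H(2 x) = - H(x)`.
-/

namespace Pool.Agent.Results.MP_88bd62_nt.Formula

open Filter

/-- The sum `S(x)` of (-2)^Ω(n) over the positive integers `n ≤ x`. -/
noncomputable def S (x : ℝ) : ℝ :=
  ∑ n ∈ Finset.Icc 1 ⌊x⌋₊, (-2 : ℝ) ^ (ArithmeticFunction.cardFactors n)

/-- The sum `M(x)` of (-2)^Ω(n) over the odd positive integers `n ≤ x`. -/
noncomputable def M (x : ℝ) : ℝ :=
  ∑ n ∈ (Finset.Icc 1 ⌊x⌋₊).filter (fun n => Odd n),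
    (-2 : ℝ) ^ (ArithmeticFunction.cardFactors n)

/-- The sum of the series `∑_{j ≥ 0} (-1)^j M(2^j t) / (2^j t)`. -/
noncomputable def H (t : ℝ) : ℝ := ∑' j : ℕ, (-1 : ℝ) ^ j * (M (2 ^ j * t) / (2 ^ j * t))

/-- `α`: the upper limit of `|S(x)| / x` as the real number `x` tends to infinity. -/
noncomputable def alpha : EReal := limsup (fun x : ℝ => ((|S x| / x : ℝ) : EReal)) atTop

theorem S_eq (x : ℝ) : S x = Pool.Agent.H701M.A3.S x := rfl

theorem H_eq (t : ℝ) : H t = Pool.Agent.H701M.A3.H t := rfl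

/-- The series `H(t)` converges absolutely; `S(2^k t) = (-1)^k 2^k t H(t)` up to an error of
`C 2^k t / (k + 1)^A`, for every `A`, uniformly in `1 ≤ t < 2`; and the upper limit of `|S(x)| / x`
and of `S(x) / x` is the (finite) supremum of `|H(t)|` over `1 ≤ t < 2`, the lower limit of
`S(x) / x` is minus this supremum. -/
theorem result :
    (∀ t : ℝ, 1 ≤ t → Summable fun j : ℕ => |(-1 : ℝ) ^ j * (M (2 ^ j * t) / (2 ^ j * t))|) ∧
    (∀ A : ℕ, ∃ C : ℝ, ∀ k : ℕ, ∀ t : ℝ, 1 ≤ t → t < 2 →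
      |S (2 ^ k * t) - (-1) ^ k * (2 ^ k * t) * H t| ≤ C * (2 ^ k * t) / ((k : ℝ) + 1) ^ A) ∧
    BddAbove ((fun t : ℝ => |H t|) '' Set.Ico 1 2) ∧
    alpha = ((sSup ((fun t : ℝ => |H t|) '' Set.Ico 1 2) : ℝ) : EReal) ∧
    limsup (fun x : ℝ => ((S x / x : ℝ) : EReal)) atTop = alpha ∧
    liminf (fun x : ℝ => ((S x / x : ℝ) : EReal)) atTop = -alpha := by
  have e : alpha = ((sSup ((fun t : ℝ => |H t|) '' Set.Ico 1 2) : ℝ) : EReal) :=
    Pool.Agent.H701M.A3.sup_abs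
  refine ⟨fun t ht => Pool.Agent.H701M.A3.cc_summable ht, fun A => ?_,
    Pool.Agent.H701M.A3.BB_bdd, e, ?_, ?_⟩
  · obtain ⟨C, hC, h⟩ := Pool.Agent.H701M.A3.main_est A
    refine ⟨C, fun k t ht ht2 => ?_⟩
    have h1 := h k t ht ht2
    have hp : (0 : ℝ) < 2 ^ k * t := by positivity
    have h2 : S (2 ^ k * t) - (-1) ^ k * (2 ^ k * t) * H t =
        (2 ^ k * t) * (Pool.Agent.H701M.A3.S (2 ^ k * t) / (2 ^ k * t) -
          (-1) ^ k * Pool.Agent.H701M.A3.H t) := by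
      rw [← S_eq, ← H_eq]
      field_simp
    rw [h2, abs_mul, abs_of_pos hp]
    have h3 := mul_le_mul_of_nonneg_left h1 hp.le
    refine h3.trans (le_of_eq ?_)
    ring
  · rw [e]
    exact Pool.Agent.H701M.A3.sup_S
  · rw [e, ← EReal.coe_neg]
    exact Pool.Agent.H701M.A3.inf_S

end Pool.Agent.Results.MP_88bd62_nt.Formula
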