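import Pool.Agent.H701M.B10

set_option autoImplicit false

/-!
# The upper limit of `|S(x)| / x`, `S(x) = ∑_{n ≤ x} (-2)^Ω(n)`, is at least `9 / 10`

The known lower bound is `1 / 2` (from the jump of `S` at the powers of two).

Proof.  Put `τ = π / log 2`.  The Dirichlet series `F(s) = ∑ (-2)^Ω(n) n^(-s)` has simple poles at the
points `s_m = 1 + (2 m + 1) τ i`; the product of `F(s)` with the square of the zeta function has the
Euler factors `1 / ((1 + 2 p^(-s)) (1 - p^(-s))^2) = 1 / (1 - 3 p^(-2 s) + 2 p^(-3 s))`, so the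
residue at `s_m` is given by `ζ(s_m)` and an absolutely convergent product.  If `|S(x)| ≤ a x` for
large `x`, then the means of `S(x) / x` against `x^(-(2 m + 1) τ i)` (these are the residues, divided
by `s_m`) form a Toeplitz matrix of norm at most `a`.  With 64 values of `m` (so with the values
`ζ(1 + i t)` for 64 numbers `t < 576`) this gives `a ≥ 9 / 10`.  The numbers are computed with
rigorous error bounds in integer arithmetic (Euler-Maclaurin formula for `ζ`, all primes below 400 in
the product).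
-/

namespace Pool.Agent.Results.MP_88bd62_nt.NineTenths

open Filter

/-- The sum `S(x)` of (-2)^Ω(n) over the positive integers `n ≤ x`. -/
noncomputable def S (x : ℝ) : ℝ :=
  ∑ n ∈ Finset.Icc 1 ⌊x⌋₊, (-2 : ℝ) ^ (ArithmeticFunction.cardFactors n)

/-- `α`: the upper limit of `|S(x)| / x` as the real number `x` tends to infinity. -/
noncomputable def alpha : EReal := limsup (fun x : ℝ => ((|S x| / x : ℝ) : EReal)) atTop

theorem S_eq (x : ℝ) : S x = Pool.Agent.H701M.S x := rfl

theorem theta_bound : ((Pool.Agent.H701M.DD : ℤ) : ℝ) *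
    (Real.exp (31 / (40 * ((200 : ℕ) : ℝ))) - 1) ≤ ((3890100000 : ℤ) : ℝ) := by
  have h1 : |Real.exp (31 / 8000) - 1 - 31 / 8000| ≤ (31 / 8000) ^ 2 :=
    Real.abs_exp_sub_one_sub_id_le (by norm_num [abs_of_nonneg])
  have h2 := (abs_le.1 h1).2
  have e : (31 : ℝ) / (40 * ((200 : ℕ) : ℝ)) = 31 / 8000 := by norm_num
  rw [e]
  norm_num [Pool.Agent.H701M.DD]
  norm_num at h2
  linarith

/-- If `|S(t)| ≤ a t` for all large `t`, then `a` is at least `9 / 10`. -/
theorem core {a X : ℝ} (ha : 0 ≤ a) (hX : ∀ t : ℝ, X ≤ t → |S t| ≤ a * t) : 9 / 10 ≤ a := by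
  have h := Pool.Agent.H701M.final_of Pool.Agent.H701M.coefC Pool.Agent.H701M.vecA
    Pool.Agent.H701M.vecB 64 9 10 (by norm_num) Pool.Agent.H701M.vecA_ok
    Pool.Agent.H701M.vecB_ok Pool.Agent.H701M.last_ok Pool.Agent.H701M.tabT
    Pool.Agent.H701M.tabP Pool.Agent.H701M.tabT_good Pool.Agent.H701M.tabT_fst
    Pool.Agent.H701M.tabP_good 200 (by norm_num) Pool.Agent.H701M.tabP_nodup
    Pool.Agent.H701M.tabP_fst 3890100000 theta_bound Pool.Agent.H701M.modes ha
    (le_max_left 1 X) (fun t ht => hX t ((le_max_right 1 X).trans ht))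
  norm_num at h ⊢
  exact h

/-- `α ≥ 9 / 10`; and, for every `a < 9 / 10`, the inequality `|S(x)| > a x` holds for arbitrarily
large real `x`. -/
theorem result : ((9 / 10 : ℝ) : EReal) ≤ alpha ∧
    ∀ a : ℝ, a < 9 / 10 → ∀ X : ℝ, ∃ x : ℝ, X ≤ x ∧ a * x < |S x| := by
  constructor
  · by_contra hcon
    rw [not_le] at hcon
    obtain ⟨b, hb1, hb2⟩ := EReal.lt_iff_exists_real_btwn.1 hcon
    have h1 : ∀ᶠ x : ℝ in atTop, ((|S x| / x : ℝ) : EReal) < (b : EReal) :=
      eventually_lt_of_limsup_lt hb1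
    obtain ⟨X, hX⟩ := eventually_atTop.1 (h1.and (eventually_gt_atTop 0))
    have hb0 : 0 ≤ b := by
      obtain ⟨h2, h3⟩ := hX X le_rfl
      have h4 : |S X| / X < b := by exact_mod_cast h2
      exact le_trans (by positivity) h4.le
    have h5 := core (a := b) (X := X) hb0 fun t ht => by
      obtain ⟨h2, h3⟩ := hX t ht
      have h4 : |S t| / t < b := by exact_mod_cast h2
      rw [div_lt_iff₀ h3] at h4
      exact h4.le
    have h6 : b < 9 / 10 := by exact_mod_cast hb2
    linarith
  · intro a ha X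
    by_contra hcon
    push Not at hcon
    have h5 := core (a := max a 0) (X := max X 0) (le_max_right _ _) fun t ht => by
      have ht0 : 0 ≤ t := (le_max_right _ _).trans ht
      have h1 := hcon t ((le_max_left _ _).trans ht)
      exact h1.trans (mul_le_mul_of_nonneg_right (le_max_left _ _) ht0)
    have h6 : max a 0 < 9 / 10 := max_lt ha (by norm_num)
    linarith

end Pool.Agent.Results.MP_88bd62_nt.NineTenths
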